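import Mathlib
import Pool.Agent.Q190.BMDefs
import Pool.Agent.Q190.CSDefs
import Pool.Agent.Q190.BM4b

/-!
# MP_4e5529: the intersection operator can increase the Banach-Mazur distance to the ball

The body is `K = {x ∈ ℝ⁴ : |x|² ≤ 1, x₁² + x₂² + x₃² ≤ 15/16}`.
-/

namespace Pool.Agent.Results.MP_4e5529_gt.DistanceIncreases

open Q190

/-- There are `n ≥ 3` (namely `n = 4`) and an origin-symmetric convex body `K` in `ℝⁿ` whose
intersection body has a larger Banach-Mazur distance to the Euclidean unit ball than `K`. -/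
theorem result : ∃ n : ℕ, 3 ≤ n ∧ ∃ K : Set (EuclideanSpace ℝ (Fin n)),
    IsConvexBody K ∧ (∀ x ∈ K, -x ∈ K) ∧
      BM.bmDist K (Metric.closedBall 0 1) <
        BM.bmDist (BM.intersectionBody K) (Metric.closedBall 0 1) :=
  ⟨4, by norm_num, BM.K, ⟨BM.K_compact, BM.K_convex, BM.K_interior⟩, BM.K_neg, BM.bm_lt⟩

end Pool.Agent.Results.MP_4e5529_gt.DistanceIncreases
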